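import Pool.Agent.Q177.DT.FW

/-! # Project DT (helper260), job BW (helper177) -/

set_option autoImplicit false

namespace Pool.Agent.Q177.DT

open Complex Filter Topology Metric Set
open Pool.Agent.Q260.DS (Sys Nm EE NZ It Li)
open Pool.Agent.Q260.DT
open scoped ComplexConjugate

theorem t_BW (h1 : S_OM) (h2 : S_UQ) (h3 : S_ST) (h4 : S_LF) (h5 : S_SZ) : S_BW := by
  intro ϑ f l g hR a ε u ha hε hu hne
  rcases le_or_gt (1 / 2) a with ha2 | ha2
  · refine ⟨1, le_rfl, fun T σ _ hσ _ z _ hz => hR.nz z (by linarith)⟩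
  obtain ⟨K, A, y0, hK, hA, hS⟩ := hR.sys
  obtain ⟨δ, hδ0, hδε, hδa⟩ : ∃ δ : ℝ, 0 < δ ∧ 16 * δ ≤ ε ∧ 16 * δ ≤ a := by
    refine ⟨min ε a / 16, ?_, ?_, ?_⟩
    · have := lt_min hε ha
      positivity
    · have := min_le_left ε a
      linarith
    · have := min_le_right ε a
      linarith
  obtain ⟨ω, hω, huw⟩ := h1 ϑ a u ha hu hne
  obtain ⟨W, C1, hW, hC1, hST⟩ := h3 ϑ f l g hR δ hδ0
  obtain ⟨C2, hC2, hUQ⟩ := h2 ϑ f l g hR a ω δ W ha (by linarith) hω hδ0 (by linarith)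
    (by linarith) hW
  obtain ⟨C3, hC3, hLF⟩ := h4 ϑ f l g hR a u ha hu
  obtain ⟨L0, hL0, hEE⟩ := EE_small C3 δ δ (by linarith) hδ0 hδ0
  obtain ⟨T0, hT0⟩ := eventually_atTop.1 (hR.lim.eventually_ge_atTop (L0 + 1 / δ))
  refine ⟨max (max (max C1 C2) (max C3 T0)) 4, ?_, ?_⟩
  · have := le_max_right (max (max C1 C2) (max C3 T0)) 4
    linarith
  intro T σ hT hσ hnz z hzT hzx
  rcases lt_or_ge (1 / 2) z.re with hz2 | hz2
  · exact hR.nz z hz2
  obtain ⟨C, hC⟩ : ∃ C : ℝ, C = max (max (max C1 C2) (max C3 T0)) 4 := ⟨_, rfl⟩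
  rw [← hC] at hT hnz
  have hCC1 : C1 ≤ C := by
    rw [hC]
    exact (le_max_left _ _).trans ((le_max_left _ _).trans (le_max_left _ _))
  have hCC2 : C2 ≤ C := by
    rw [hC]
    exact (le_max_right _ _).trans ((le_max_left _ _).trans (le_max_left _ _))
  have hCC3 : C3 ≤ C := by
    rw [hC]
    exact (le_max_left _ _).trans ((le_max_right _ _).trans (le_max_left _ _))
  have hCT0 : T0 ≤ C := by
    rw [hC]
    exact (le_max_right _ _).trans ((le_max_right _ _).trans (le_max_left _ _))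
  have hC4 : 4 ≤ C := by
    rw [hC]
    exact le_max_right _ _
  have hLt := hT0 T (hCT0.trans hT)
  have hfr : 0 < 1 / δ := by positivity
  have hLpos : 0 < l T := by linarith
  have hL1 : 1 ≤ l T := by linarith
  have hδL : 1 ≤ δ * l T := by
    have h6 : 1 / δ ≤ l T := by linarith
    rw [div_le_iff₀ hδ0] at h6
    linarith
  -- smaller boxes
  have hnz2 : NZ (Fa f a (uw a ω)) σ (T - C2 * l T) (T + C2 * l T) := by
    rw [huw]
    intro w hw1 hw2 hw3 hw4
    have h6 : C2 * l T ≤ C * l T := mul_le_mul_of_nonneg_right hCC2 hLpos.le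
    exact hnz w hw1 hw2 (by linarith) (by linarith)
  have hnz4 : NZ (Fa f a u) σ (T - 4) (T + 4) := by
    intro w hw1 hw2 hw3 hw4
    have h6 : 4 * 1 ≤ C * l T := mul_le_mul hC4 hL1 (by norm_num) (by linarith)
    exact hnz w hw1 hw2 (by linarith) (by linarith)
  have hub := hUQ T σ (hCC2.trans hT) hσ (by linarith) hnz2
  have hub' : ∀ w : ℂ, σ + a ≤ w.re → w.re ≤ 2 → |w.im - T| ≤ W →
      ‖f w‖ ≤ g T * Real.exp (l T * w.re + 2 * (δ * l T)) := by
    intro w hw1 hw2 hw3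
    refine (hub w hw1 hw2 hw3).trans (le_of_eq ?_)
    rw [Nm_zero, Real.exp_add]
    ring_nf
  have hstrip : ∀ x : ℝ, |x| ≤ σ + a →
      ‖f ((x : ℂ) + I * (T : ℂ))‖ ≤ 2 * (g T * Real.exp (l T * (σ + a) + 3 * (δ * l T))) := by
    intro x hx
    refine (hST T (σ + a) (g T * Real.exp (l T * (σ + a) + 2 * (δ * l T))) (hCC1.trans hT)
      (by linarith) (by linarith) (fun w hw1 hw2 => ?_) x hx).trans ?_
    · have := hub' w hw1.ge (by linarith) hw2
      rwa [hw1] at this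
    have e1 : Real.exp (l T * (σ + a) + 3 * (δ * l T)) =
        Real.exp (δ * l T) * Real.exp (l T * (σ + a) + 2 * (δ * l T)) := by
      rw [← Real.exp_add]
      ring_nf
    rw [e1]
    have h6 : 0 < Real.exp (δ * l T) := Real.exp_pos _
    have h7 : g T ≤ g T * Real.exp (l T * (σ + a) + 2 * (δ * l T)) := by
      have h8 : 1 ≤ Real.exp (l T * (σ + a) + 2 * (δ * l T)) := by
        rw [Real.one_le_exp_iff]
        have : 0 ≤ l T * (σ + a) := mul_nonneg hLpos.le (by linarith)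
        linarith
      nlinarith [hS.pos T]
    nlinarith
  -- the point
  obtain ⟨x, hx⟩ : ∃ x : ℝ, x = z.re - a := ⟨_, rfl⟩
  have hxσ : σ + ε ≤ x := by linarith
  have hz : z = ((x + a : ℝ) : ℂ) + I * (T : ℂ) := by
    have e1 : x + a = z.re := by linarith
    rw [e1, ← hzT]
    exact eq_re_im z
  obtain ⟨p, hp⟩ : ∃ p : ℂ, p = (x : ℂ) + I * (T : ℂ) := ⟨_, rfl⟩
  have ep1 : p + a = z := by
    rw [hp, hz]
    push_cast
    ring
  have ep2 : p - a = ((x - a : ℝ) : ℂ) + I * (T : ℂ) := by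
    rw [hp]
    push_cast
    ring
  obtain ⟨hF0, hFlog⟩ := hLF T σ δ (hCC3.trans hT) hσ (by linarith) hδ0 (by linarith) hnz4 x
    (by linarith) (by linarith)
  rw [← hp] at hF0 hFlog
  rw [Nm_zero] at hFlog
  have hlo := (of_log (norm_pos_iff.2 hF0) (mul_pos (hS.pos _) (Real.exp_pos _))
    (hFlog.trans (hEE (l T) (by linarith)))).2
  have hlo' : g T * Real.exp (l T * (x + a) - δ * l T) ≤ ‖Fa f a u p‖ := by
    refine le_trans (le_of_eq ?_) hlo
    rw [sub_eq_neg_add, Real.exp_add]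
    ring
  intro hfz
  have h6 : ‖Fa f a u p‖ = ‖f (p - a)‖ := by
    unfold Fa
    rw [ep1, hfz, zero_add, norm_mul, hu, one_mul]
  rw [h6] at hlo'
  rw [ep2] at hlo'
  rcases le_or_gt |x - a| (σ + a) with hc | hc
  · exact sizes (hS.pos T) hδL hLpos.le hlo' (hstrip (x - a) hc) (by linarith)
  · have hs : 0 ≤ x - a := by
      by_contra hneg
      push Not at hneg
      rw [abs_of_neg hneg] at hc
      linarith
    rw [abs_of_nonneg hs] at hc
    refine sizes (y := x - a) (hS.pos T) hδL hLpos.le hlo' ?_ (by linarith)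
    have h7 := hub' (((x - a : ℝ) : ℂ) + I * (T : ℂ)) (by simp; linarith) (by simp; linarith)
      (by simp; linarith)
    have e1 : (((x - a : ℝ) : ℂ) + I * (T : ℂ)).re = x - a := by simp
    rw [e1] at h7
    refine h7.trans ?_
    have h8 : Real.exp (l T * (x - a) + 2 * (δ * l T)) ≤
        Real.exp (l T * (x - a) + 3 * (δ * l T)) := by
      rw [Real.exp_le_exp]
      linarith
    have h9 := mul_le_mul_of_nonneg_left h8 (hS.pos T).le
    have h10 : 0 < g T * Real.exp (l T * (x - a) + 3 * (δ * l T)) :=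
      mul_pos (hS.pos T) (Real.exp_pos _)
    linarith

end Pool.Agent.Q177.DT
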