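import Pool.Agent.Q260.DT.Stm

/-! # Project DT (helper260), job FW (helper177) -/

set_option autoImplicit false

namespace Pool.Agent.Q177.DT

open Complex Filter Topology Metric Set
open Pool.Agent.Q260.DS (Sys Nm EE NZ It Li)
open Pool.Agent.Q260.DT
open scoped ComplexConjugate

/-- the error term is small -/
theorem EE_small (C δ c : ℝ) (hC : 0 < C) (hδ : 0 < δ) (hc : 0 < c) :
    ∃ L0 : ℝ, 1 ≤ L0 ∧ ∀ L : ℝ, L0 ≤ L → EE C L δ ≤ c * L := by
  have t1 : Tendsto (fun L : ℝ => C / δ ^ 2 * L ^ (-(δ / C))) atTop (𝓝 (C / δ ^ 2 * 0)) :=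
    (tendsto_rpow_neg_atTop (by positivity)).const_mul _
  rw [mul_zero] at t1
  obtain ⟨L0, h0⟩ := eventually_atTop.1 ((tendsto_order.1 t1).2 c hc)
  refine ⟨max L0 1, le_max_right _ _, fun L hL => ?_⟩
  have hL1 : 1 ≤ L := (le_max_right _ _).trans hL
  have hL0 : 0 < L := by linarith
  have h1 := h0 L ((le_max_left _ _).trans hL)
  unfold Pool.Agent.Q260.DS.EE
  have e1 : L ^ (1 - δ / C) = L ^ (-(δ / C)) * L := by
    rw [sub_eq_neg_add, Real.rpow_add hL0, Real.rpow_one]
  rw [e1, ← mul_assoc]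
  exact mul_le_mul_of_nonneg_right h1.le hL0.le

theorem of_log {a b E : ℝ} (ha : 0 < a) (hb : 0 < b) (h : |Real.log (a / b)| ≤ E) :
    a ≤ Real.exp E * b ∧ Real.exp (-E) * b ≤ a := by
  rw [abs_le] at h
  have hab : 0 < a / b := div_pos ha hb
  have h1 : a / b ≤ Real.exp E := by
    rw [← Real.log_le_iff_le_exp hab]
    exact h.2
  have h2 : Real.exp (-E) ≤ a / b := by
    rw [← Real.le_log_iff_exp_le hab]
    exact h.1
  rw [div_le_iff₀ hb] at h1
  rw [le_div_iff₀ hb] at h2
  exact ⟨h1, h2⟩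

theorem Nm_zero (l g : ℝ → ℝ) (T x : ℝ) : Nm l g 0 T x = g T * Real.exp (l T * x) := by
  unfold Pool.Agent.Q260.DS.Nm
  rw [pow_zero, mul_one]

theorem eq_re_im (w : ℂ) : w = ((w.re : ℝ) : ℂ) + I * ((w.im : ℝ) : ℂ) := by
  rw [mul_comm]
  exact (Complex.re_add_im w).symm

/-- the two sizes cannot be equal -/
theorem sizes {L δ G x y m : ℝ} (hG : 0 < G) (hδL : 1 ≤ δ * L) (hL : 0 ≤ L)
    (hx : G * Real.exp (L * x - δ * L) ≤ m) (hm : m ≤ 2 * (G * Real.exp (L * y + 3 * (δ * L))))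
    (hxy : y + 15 * δ ≤ x) : False := by
  have h1 : G * Real.exp (L * x - δ * L) ≤ G * (2 * Real.exp (L * y + 3 * (δ * L))) := by
    linarith
  have h2 : Real.exp (L * x - δ * L) ≤ 2 * Real.exp (L * y + 3 * (δ * L)) :=
    le_of_mul_le_mul_left h1 hG
  have h3 : 2 < Real.exp 1 := by
    have := Real.add_one_lt_exp (x := 1) one_ne_zero
    linarith
  have h4 : Real.exp 1 * Real.exp (L * y + 3 * (δ * L)) ≤ Real.exp (L * x - δ * L) := by
    rw [← Real.exp_add, Real.exp_le_exp]
    have h5 : L * (y + 15 * δ) ≤ L * x := mul_le_mul_of_nonneg_left hxy hL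
    nlinarith
  have h6 : 2 * Real.exp (L * y + 3 * (δ * L)) < Real.exp 1 * Real.exp (L * y + 3 * (δ * L)) :=
    mul_lt_mul_of_pos_right h3 (Real.exp_pos _)
  linarith

theorem t_FW (h1 : Pool.Agent.Q260.DS.S_LB) (h2 : S_ST) (h3 : S_SZ) : S_FW := by
  intro ϑ f l g hR a ε u ha hε hu
  obtain ⟨K, A, y0, hK, hA, hS⟩ := hR.sys
  obtain ⟨δ, hδ0, hδε, hδa, hδ1⟩ : ∃ δ : ℝ, 0 < δ ∧ 16 * δ ≤ ε ∧ 16 * δ ≤ a ∧ 16 * δ ≤ 1 := by
    refine ⟨min (min ε a) 1 / 16, ?_, ?_, ?_, ?_⟩
    · have := lt_min (lt_min hε ha) one_pos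
      positivity
    · have := (min_le_left (min ε a) 1).trans (min_le_left ε a)
      linarith
    · have := (min_le_left (min ε a) 1).trans (min_le_right ε a)
      linarith
    · have := min_le_right (min ε a) 1
      linarith
  obtain ⟨W, C1, hW, hC1, hST⟩ := h2 ϑ f l g hR δ hδ0
  obtain ⟨C5, hC5, hLB⟩ := h1 K A 0 hK hA
  obtain ⟨L0, hL0, hEE⟩ := EE_small C5 δ (δ / 4) (by linarith) hδ0 (by positivity)
  obtain ⟨Cr, hCr⟩ := hR.rate 1 one_pos
  obtain ⟨P, hP⟩ : ∃ P : ℝ, P = K * Real.log (2 + W) := ⟨_, rfl⟩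
  have hP0 : 0 ≤ P := by
    rw [hP]
    exact mul_nonneg (by linarith) (Real.log_nonneg (by linarith))
  obtain ⟨Q, hQ⟩ : ∃ Q : ℝ, Q = 2 * P + ϑ * W + W + |Cr| := ⟨_, rfl⟩
  have hϑW : 0 ≤ ϑ * W := mul_nonneg hR.th (by linarith)
  have hQ0 : 0 ≤ Q := by
    rw [hQ]
    have := abs_nonneg Cr
    linarith
  obtain ⟨B, hB⟩ : ∃ B : ℝ, B = K * (1 + (3 + a) ^ 2) := ⟨_, rfl⟩
  have hB0 : 0 ≤ B := by rw [hB]; positivity
  obtain ⟨T0, hT0⟩ := eventually_atTop.1
    (hR.lim.eventually_ge_atTop (L0 + P + C5 + (Q + B + 1) / δ))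
  refine ⟨max (max C1 T0) (W + 4), ?_, ?_⟩
  · have := le_max_left C1 T0
    have := le_max_left (max C1 T0) (W + 4)
    linarith
  intro T σ hT hσ hnz z hzT hzx hz2
  have hTC1 : C1 ≤ T := (le_max_left _ _).trans ((le_max_left _ _).trans hT)
  have hTT0 : T0 ≤ T := (le_max_right _ _).trans ((le_max_left _ _).trans hT)
  have hLt := hT0 T hTT0
  have hfr : 0 ≤ (Q + B + 1) / δ := by positivity
  have hLL0 : L0 + P ≤ l T := by linarith
  have hLC5 : C5 + P ≤ l T := by linarith
  have hδL : Q + B + 1 ≤ δ * l T := by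
    have h4 : (Q + B + 1) / δ ≤ l T := by linarith
    rw [div_le_iff₀ hδ0] at h4
    linarith
  have hLpos : 0 < l T := by linarith
  obtain ⟨θ, hθ⟩ : ∃ θ : ℝ, θ = min (σ + a) (1 / 2) := ⟨_, rfl⟩
  have hθ0 : 0 ≤ θ := by
    rw [hθ]
    exact le_min (by linarith) (by norm_num)
  have hθ1 : θ ≤ 1 / 2 := by rw [hθ]; exact min_le_right _ _
  have hθ2 : θ ≤ σ + a := by rw [hθ]; exact min_le_left _ _
  -- the sizes at neighbouring heights
  have hsize : ∀ v x : ℝ, |v| ≤ W → θ + δ ≤ x → x ≤ 3 →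
      ‖f ((x : ℂ) + I * ((T + v : ℝ) : ℂ))‖ ≤
        Real.exp (δ / 4 * l (T + v)) * (g (T + v) * Real.exp (l (T + v) * x)) ∧
      Real.exp (-(δ / 4 * l (T + v))) * (g (T + v) * Real.exp (l (T + v) * x)) ≤
        ‖f ((x : ℂ) + I * ((T + v : ℝ) : ℂ))‖ := by
    intro v x hv hx1 hx2
    have h4 := hS.shift T v
    have h5 : K * Real.log (2 + |v|) ≤ P := by
      rw [hP]
      refine mul_le_mul_of_nonneg_left ?_ (by linarith)
      exact Real.log_le_log (by positivity) (by linarith)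
    have h6 := (abs_le.1 (h4.trans h5)).1
    have h7 := hLB y0 f l g hS [] ⟨rfl, by simp⟩ (T + v) θ δ (by linarith) hθ0 (by linarith) hδ0
      (by linarith) (by
        intro w hw1 hw2 hw3 hw4
        show f w ≠ 0
        rw [hθ, min_lt_iff] at hw1
        rcases hw1 with hw1 | hw1
        · refine hnz w hw1 ?_
          have h8 := le_max_right (max C1 T0) (W + 4)
          rw [abs_le] at hv ⊢
          constructor <;> linarith
        · exact hR.nz w hw1) x hx1 hx2
    obtain ⟨h8, h9, -⟩ := h7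
    have h10 : EE C5 (l (T + v)) δ ≤ δ / 4 * l (T + v) := hEE _ (by linarith)
    rw [Nm_zero] at h9
    have h11 := of_log (norm_pos_iff.2 h8) (mul_pos (hS.pos _) (Real.exp_pos _)) (h9.trans h10)
    exact h11
  -- the bound on the line
  have hM : ∀ w : ℂ, w.re = θ + δ → |w.im - T| ≤ W →
      ‖f w‖ ≤ g T * Real.exp (l T * (θ + δ) + 2 * (δ * l T)) := by
    intro w hw1 hw2
    have h4 := (hsize (w.im - T) (θ + δ) hw2 le_rfl (by linarith)).1
    have e1 : T + (w.im - T) = w.im := by ring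
    rw [e1] at h4
    have e2 : w = ((θ + δ : ℝ) : ℂ) + I * ((w.im : ℝ) : ℂ) := by
      rw [← hw1]
      exact eq_re_im w
    rw [← e2] at h4
    refine h4.trans ?_
    have h5 := hCr T (w.im - T)
    rw [e1] at h5
    have h6 := (abs_le.1 h5).2
    have h7 : |T| - |w.im| ≤ W := by
      have := abs_sub_abs_le_abs_sub T w.im
      rw [abs_sub_comm] at this
      linarith
    have h8 : ϑ * (|T| - |w.im|) ≤ ϑ * W := mul_le_mul_of_nonneg_left h7 hR.th
    have h9 : Real.log (g w.im) ≤ Real.log (g T) + (ϑ * W + W + |Cr|) := by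
      have := le_abs_self Cr
      linarith
    have h10 : g w.im ≤ g T * Real.exp (ϑ * W + W + |Cr|) := by
      calc g w.im = Real.exp (Real.log (g w.im)) := (Real.exp_log (hS.pos w.im)).symm
        _ ≤ Real.exp (Real.log (g T) + (ϑ * W + W + |Cr|)) := Real.exp_le_exp.2 h9
        _ = g T * Real.exp (ϑ * W + W + |Cr|) := by
            rw [Real.exp_add, Real.exp_log (hS.pos T)]
    have h11 : l w.im ≤ l T + P := by
      have h12 := hS.shift T (w.im - T)
      rw [e1] at h12
      have h13 : K * Real.log (2 + |w.im - T|) ≤ P := by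
        rw [hP]
        refine mul_le_mul_of_nonneg_left ?_ (by linarith)
        exact Real.log_le_log (by positivity) (by linarith)
      have := (abs_le.1 (h12.trans h13)).2
      linarith
    calc Real.exp (δ / 4 * l w.im) * (g w.im * Real.exp (l w.im * (θ + δ)))
        ≤ Real.exp (δ / 4 * l w.im) * ((g T * Real.exp (ϑ * W + W + |Cr|)) *
            Real.exp (l w.im * (θ + δ))) := by
          refine mul_le_mul_of_nonneg_left ?_ (Real.exp_pos _).le
          exact mul_le_mul_of_nonneg_right h10 (Real.exp_pos _).le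
      _ = g T * Real.exp (δ / 4 * l w.im + (ϑ * W + W + |Cr|) + l w.im * (θ + δ)) := by
          rw [Real.exp_add (δ / 4 * l w.im + (ϑ * W + W + |Cr|)),
            Real.exp_add (δ / 4 * l w.im)]
          ring
      _ ≤ g T * Real.exp (l T * (θ + δ) + 2 * (δ * l T)) := by
          refine mul_le_mul_of_nonneg_left ?_ (hS.pos T).le
          rw [Real.exp_le_exp]
          have h14 : δ / 4 * l w.im ≤ δ / 4 * (l T + P) :=
            mul_le_mul_of_nonneg_left h11 (by positivity)
          have h15 : l w.im * (θ + δ) ≤ (l T + P) * (θ + δ) :=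
            mul_le_mul_of_nonneg_right h11 (by linarith)
          have h16 : P * (θ + δ) ≤ P * 1 := mul_le_mul_of_nonneg_left (by linarith) hP0
          have h17 : δ / 4 * P ≤ 1 * P := mul_le_mul_of_nonneg_right (by linarith) hP0
          nlinarith
  have hgM : g T ≤ g T * Real.exp (l T * (θ + δ) + 2 * (δ * l T)) := by
    have h4 : 1 ≤ Real.exp (l T * (θ + δ) + 2 * (δ * l T)) := by
      rw [Real.one_le_exp_iff]
      have : 0 ≤ l T * (θ + δ) := mul_nonneg hLpos.le (by linarith)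
      linarith
    nlinarith [hS.pos T]
  have hstrip : ∀ x : ℝ, |x| ≤ θ + δ →
      ‖f ((x : ℂ) + I * (T : ℂ))‖ ≤ 2 * (g T * Real.exp (l T * (θ + δ) + 3 * (δ * l T))) := by
    intro x hx
    refine (hST T (θ + δ) _ hTC1 (by linarith) (by linarith) hM x hx).trans ?_
    have e1 : Real.exp (l T * (θ + δ) + 3 * (δ * l T)) =
        Real.exp (δ * l T) * Real.exp (l T * (θ + δ) + 2 * (δ * l T)) := by
      rw [← Real.exp_add]
      ring_nf
    rw [e1]
    have h4 : 0 < Real.exp (δ * l T) := Real.exp_pos _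
    nlinarith
  -- the point
  obtain ⟨x, hx⟩ : ∃ x : ℝ, x = z.re := ⟨_, rfl⟩
  rw [← hx] at hzx hz2
  have hz : z = (x : ℂ) + I * (T : ℂ) := by
    rw [hx, ← hzT]
    exact eq_re_im z
  have ez1 : z + a = ((x + a : ℝ) : ℂ) + I * (T : ℂ) := by
    rw [hz]
    push_cast
    ring
  have ez2 : z - a = ((x - a : ℝ) : ℂ) + I * (T : ℂ) := by
    rw [hz]
    push_cast
    ring
  have hlo : g T * Real.exp (l T * (x + a) - δ * l T) ≤ ‖f (z + a)‖ := by
    rw [ez1]
    rcases le_or_gt (x + a) 3 with hxa | hxa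
    · have h4 := (hsize 0 (x + a) (by rw [abs_zero]; linarith) (by linarith) hxa).2
      rw [add_zero] at h4
      refine le_trans ?_ h4
      rw [← mul_assoc, mul_comm (Real.exp _) (g T), mul_assoc, ← Real.exp_add]
      refine mul_le_mul_of_nonneg_left ?_ (hS.pos T).le
      rw [Real.exp_le_exp]
      nlinarith
    · have h4 := hS.lo T ((x + a : ℝ) : ℂ) (by rw [Complex.ofReal_re]; linarith)
      rw [Complex.ofReal_re] at h4
      refine le_trans ?_ h4
      refine mul_le_mul_of_nonneg_left ?_ (hS.pos T).le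
      rw [Real.exp_le_exp]
      have h5 : K * (1 + ‖((x + a : ℝ) : ℂ)‖ ^ 2) ≤ B := by
        rw [hB, Complex.norm_real, Real.norm_eq_abs, sq_abs]
        refine mul_le_mul_of_nonneg_left ?_ (by linarith)
        nlinarith
      linarith
  have hup : ∃ y : ℝ, y + 15 * δ ≤ x + a ∧
      ‖f (z - a)‖ ≤ 2 * (g T * Real.exp (l T * y + 3 * (δ * l T))) := by
    rw [ez2]
    have hweak : ∀ y E : ℝ, E ≤ δ * l T → g T * Real.exp (l T * y + E) ≤
        2 * (g T * Real.exp (l T * y + 3 * (δ * l T))) := by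
      intro y E hE
      have h4 : Real.exp (l T * y + E) ≤ Real.exp (l T * y + 3 * (δ * l T)) := by
        rw [Real.exp_le_exp]
        linarith
      have h5 := mul_le_mul_of_nonneg_left h4 (hS.pos T).le
      have h6 : 0 < g T * Real.exp (l T * y + 3 * (δ * l T)) := mul_pos (hS.pos T) (Real.exp_pos _)
      linarith
    have hLBup : ∀ y : ℝ, θ + δ ≤ y → y ≤ 3 → ‖f ((y : ℂ) + I * (T : ℂ))‖ ≤
        2 * (g T * Real.exp (l T * y + 3 * (δ * l T))) := by
      intro y hy1 hy2
      have h4 := (hsize 0 y (by rw [abs_zero]; linarith) hy1 hy2).1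
      rw [add_zero] at h4
      refine h4.trans ?_
      have e1 : Real.exp (δ / 4 * l T) * (g T * Real.exp (l T * y)) =
          g T * Real.exp (l T * y + δ / 4 * l T) := by
        rw [Real.exp_add]
        ring
      rw [e1]
      exact hweak _ _ (by nlinarith)
    rcases le_or_gt |x - a| (θ + δ) with hc | hc
    · exact ⟨θ + δ, by linarith, hstrip (x - a) hc⟩
    · rcases le_total 0 (x - a) with hs | hs
      · rw [abs_of_nonneg hs] at hc
        exact ⟨x - a, by linarith, hLBup (x - a) hc.le (by linarith)⟩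
      · rw [abs_of_nonpos hs] at hc
        refine ⟨a - x, by linarith, ?_⟩
        have e1 : ‖f (((x - a : ℝ) : ℂ) + I * (T : ℂ))‖ =
            ‖f (((a - x : ℝ) : ℂ) + I * (T : ℂ))‖ := by
          rw [← hR.sym]
          congr 2
          simp only [map_add, map_mul, Complex.conj_I, Complex.conj_ofReal]
          push_cast
          ring
        rw [e1]
        rcases le_or_gt (a - x) 3 with hs3 | hs3
        · exact hLBup (a - x) (by linarith) hs3
        · refine (hS.up T ((a - x : ℝ) : ℂ)).trans ?_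
          rw [Complex.ofReal_re, abs_of_nonneg (show (0 : ℝ) ≤ a - x by linarith),
            max_eq_left (by linarith)]
          refine hweak _ _ ?_
          have h5 : K * (1 + ‖((a - x : ℝ) : ℂ)‖ ^ 2) ≤ B := by
            rw [hB, Complex.norm_real, Real.norm_eq_abs, sq_abs]
            refine mul_le_mul_of_nonneg_left ?_ (by linarith)
            nlinarith
          linarith
  intro hF
  obtain ⟨y, hy1, hy2⟩ := hup
  have h4 : ‖f (z + a)‖ = ‖f (z - a)‖ := by
    have h5 : f (z + a) = -(u * f (z - a)) := by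
      unfold Fa at hF
      exact eq_neg_of_add_eq_zero_left hF
    rw [h5, norm_neg, norm_mul, hu, one_mul]
  rw [h4] at hlo
  exact sizes (hS.pos T) (by linarith) hLpos.le hlo hy2 hy1

end Pool.Agent.Q177.DT
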